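import Mathlib

/-!
# Lacunary sums: the rate function of the independent case never occurs below super-exponential growth

Let `(a_k)` be ANY sequence of real frequencies and `S_n = ∑_{k<n} cos (2π a_k U)`. If `(S_n / n)`
satisfies the upper bound of a large deviation principle with speed `n` and the rate function
`Ĩ` of the independent case, then `max_{k<n} |a_k|` grows faster than `C ^ n` for every `C`. The reason:
if `|a_k| ≤ C ^ n` for all `k < n`, then on `[0, s C ^ (-n)]` all the cosines are close to `1`, so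
`P (S_n / n ≥ 1 - δ) ≥ s C ^ (-n)`; but `Ĩ(x) → ∞` as `x → 1`.
-/

set_option autoImplicit false
set_option maxHeartbeats 4000000
set_option synthInstance.maxHeartbeats 400000

open Filter Topology MeasureTheory Real

namespace Pool.Agent.Results.MP_4e696d_pr.EverySequence

/-- The probability that `S_n / n` lies in `A`, where `S_n = ∑_{k<n} cos (2π a_k ω)` and `ω` is uniform
on `[0,1]`. -/
noncomputable def prob (a : ℕ → ℝ) (n : ℕ) (A : Set ℝ) : ENNReal :=
  volume (Set.Icc (0 : ℝ) 1 ∩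
    {ω : ℝ | (∑ k ∈ Finset.range n, Real.cos (2 * π * a k * ω)) / (n : ℝ) ∈ A})

/-- The rate function of the independent case, the Legendre transform of
`Λ(l) = log ∫_0^1 exp (l cos 2πt) dt`. -/
noncomputable def rate (x : ℝ) : EReal :=
  ⨆ l : ℝ, (((l * x - Real.log (∫ t in (0 : ℝ)..1, Real.exp (l * Real.cos (2 * π * t)))) : ℝ) : EReal)

/-- The upper bound of the large deviation principle with speed `n` and rate function `rate`, for the
closed half-lines `[x, ∞)` only. -/
def HalfLineUpperBound (a : ℕ → ℝ) : Prop :=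
  ∀ x₀ : ℝ, limsup (fun n : ℕ => (((n : ℝ)⁻¹ : ℝ) : EReal) * ENNReal.log (prob a n (Set.Ici x₀))) atTop
    ≤ - ⨅ x ∈ Set.Ici x₀, rate x

/-- The large deviation principle with speed `n` and rate function `rate`. -/
def LDP (a : ℕ → ℝ) : Prop :=
  (∀ F : Set ℝ, IsClosed F →
    limsup (fun n : ℕ => (((n : ℝ)⁻¹ : ℝ) : EReal) * ENNReal.log (prob a n F)) atTop
      ≤ - ⨅ x ∈ F, rate x) ∧
  (∀ G : Set ℝ, IsOpen G → - (⨅ x ∈ G, rate x) ≤
    liminf (fun n : ℕ => (((n : ℝ)⁻¹ : ℝ) : EReal) * ENNReal.log (prob a n G)) atTop)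

lemma LDP.half {a : ℕ → ℝ} (h : LDP a) : HalfLineUpperBound a :=
  fun _ => h.1 _ isClosed_Ici

/-- `∫ exp (l (cos 2πt - 1)) → 0`. -/
lemma int_tendsto : Tendsto (fun l : ℕ => ∫ t in (0 : ℝ)..1, Real.exp ((l : ℝ) * (Real.cos (2 * π * t) - 1)))
    atTop (𝓝 0) := by
  suffices hT : Tendsto (fun l : ℕ => ∫ t in (0 : ℝ)..1,
      Real.exp ((l : ℝ) * (Real.cos (2 * π * t) - 1))) atTop (𝓝 (∫ t in (0 : ℝ)..1, (fun _ => (0 : ℝ)) t)) by
    simpa using hT
  apply intervalIntegral.tendsto_integral_filter_of_dominated_convergence (fun _ => (1 : ℝ))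
  · exact Eventually.of_forall fun l => (by fun_prop : Continuous _).aestronglyMeasurable
  · refine Eventually.of_forall fun l => Eventually.of_forall fun t _ => ?_
    rw [Real.norm_eq_abs, abs_of_pos (Real.exp_pos _), Real.exp_le_one_iff]
    exact mul_nonpos_of_nonneg_of_nonpos (Nat.cast_nonneg _) (by linarith [Real.cos_le_one (2 * π * t)])
  · simp
  · have h1 : ∀ᵐ t : ℝ, t ≠ 1 := by
      rw [ae_iff]; simp
    filter_upwards [h1] with t ht hI
    rw [Set.uIoc_of_le zero_le_one] at hI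
    have hlt : Real.cos (2 * π * t) < 1 := by
      refine lt_of_le_of_ne (Real.cos_le_one _) fun hc => ?_
      rw [Real.cos_eq_one_iff] at hc
      obtain ⟨n, hn⟩ := hc
      have h2 : (n : ℝ) = t := by
        have hπ : (2 * π) ≠ 0 := by positivity
        apply mul_left_cancel₀ hπ
        rw [← hn]; ring
      have h3 : (0 : ℝ) < n := by rw [h2]; exact hI.1
      have h4 : (n : ℝ) < 1 := by rw [h2]; exact lt_of_le_of_ne hI.2 ht
      have h5 : 0 < n := by exact_mod_cast h3
      have h6 : n < 1 := by exact_mod_cast h4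
      omega
    have h2 : Tendsto (fun l : ℕ => (l : ℝ) * (Real.cos (2 * π * t) - 1)) atTop atBot :=
      tendsto_natCast_atTop_atTop.atTop_mul_const_of_neg (by linarith)
    exact Real.tendsto_exp_atBot.comp h2

lemma exists_l (K : ℝ) : ∃ l : ℝ, 1 ≤ l ∧
    Real.log (∫ t in (0 : ℝ)..1, Real.exp (l * Real.cos (2 * π * t))) ≤ l - K := by
  have h1 := (int_tendsto.eventually (gt_mem_nhds (Real.exp_pos (-K)))).and (eventually_ge_atTop 1)
  obtain ⟨l, hl, hl1⟩ := h1.exists
  refine ⟨l, by exact_mod_cast hl1, ?_⟩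
  have h2 : ∫ t in (0 : ℝ)..1, Real.exp ((l : ℝ) * Real.cos (2 * π * t)) =
      Real.exp l * ∫ t in (0 : ℝ)..1, Real.exp ((l : ℝ) * (Real.cos (2 * π * t) - 1)) := by
    rw [← intervalIntegral.integral_const_mul]
    congr 1
    funext t
    rw [← Real.exp_add]
    congr 1; ring
  have hpos : 0 < ∫ t in (0 : ℝ)..1, Real.exp ((l : ℝ) * Real.cos (2 * π * t)) :=
    intervalIntegral.intervalIntegral_pos_of_pos (Continuous.intervalIntegrable (by fun_prop) _ _)
      (fun _ => Real.exp_pos _) one_pos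
  rw [Real.log_le_iff_le_exp hpos, h2, sub_eq_add_neg, Real.exp_add]
  exact mul_le_mul_of_nonneg_left hl.le (Real.exp_pos _).le

theorem main (a : ℕ → ℝ) (C : ℝ) (hC : 1 ≤ C) (h : ∃ᶠ n : ℕ in atTop, ∀ k < n, |a k| ≤ C ^ n) :
    ¬ HalfLineUpperBound a := by
  intro H
  obtain ⟨l, hl1, hl⟩ := exists_l (Real.log C + 3)
  set δ : ℝ := 1 / l with hδ
  have hl0 : 0 < l := by linarith
  have hδ0 : 0 < δ := by positivity
  have hδ1 : δ ≤ 1 := by rw [hδ, div_le_one hl0]; exact hl1
  have hlδ : l * δ = 1 := by rw [hδ]; field_simp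
  have H1 := H (1 - δ)
  have h1 : (((Real.log C + 2 : ℝ)) : EReal) ≤ ⨅ x ∈ Set.Ici (1 - δ), rate x := by
    refine le_iInf₂ fun x hx => le_iSup_of_le l ?_
    rw [EReal.coe_le_coe_iff]
    have hx' : 1 - δ ≤ x := hx
    nlinarith
  have h2 : limsup (fun n : ℕ => (((n : ℝ)⁻¹ : ℝ) : EReal) *
      ENNReal.log (prob a n (Set.Ici (1 - δ)))) atTop ≤ ((-(Real.log C + 2) : ℝ) : EReal) := by
    refine H1.trans ?_
    rw [EReal.coe_neg]
    exact EReal.neg_le_neg_iff.2 h1
  set s : ℝ := δ / 10 with hs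
  have hs0 : 0 < s := by positivity
  obtain ⟨N, hN⟩ := exists_nat_ge (-Real.log s + 1)
  have h3 : ((-(Real.log C + 1) : ℝ) : EReal) ≤ limsup (fun n : ℕ => (((n : ℝ)⁻¹ : ℝ) : EReal) *
      ENNReal.log (prob a n (Set.Ici (1 - δ)))) atTop := by
    apply le_limsup_of_frequently_le'
    refine (h.and_eventually (eventually_ge_atTop (max N 1))).mono ?_
    rintro n ⟨hn, hnN⟩
    have hn1 : 1 ≤ n := (le_max_right _ _).trans hnN
    have hn0 : (0 : ℝ) < n := by exact_mod_cast hn1
    have hnN' : (N : ℝ) ≤ n := by exact_mod_cast (le_max_left _ _).trans hnN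
    have hCn : 1 ≤ C ^ n := one_le_pow₀ hC
    set r : ℝ := s / C ^ n with hr
    have hr0 : 0 < r := by positivity
    have hr1 : r ≤ 1 := by
      rw [hr, div_le_one (by positivity)]
      linarith
    have hv : ENNReal.ofReal r ≤ prob a n (Set.Ici (1 - δ)) := by
      unfold prob
      have : ENNReal.ofReal r = volume (Set.Icc (0 : ℝ) r) := by simp
      rw [this]
      apply measure_mono
      rintro ω ⟨hω0, hω1⟩
      refine ⟨⟨hω0, hω1.trans hr1⟩, ?_⟩
      change 1 - δ ≤ _
      rw [le_div_iff₀ hn0]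
      have : (1 - δ) * n = ∑ k ∈ Finset.range n, (1 - δ) := by
        rw [Finset.sum_const, Finset.card_range, nsmul_eq_mul, mul_comm]
      rw [this]
      refine Finset.sum_le_sum fun k hk => ?_
      have hk' := hn k (Finset.mem_range.1 hk)
      refine le_trans ?_ Real.one_sub_sq_div_two_le_cos
      have h4 : |a k * ω| ≤ s := by
        rw [abs_mul, abs_of_nonneg hω0]
        calc |a k| * ω ≤ C ^ n * r := by gcongr
          _ = s := by rw [hr]; field_simp
      have h5 : (2 * π * a k * ω) ^ 2 ≤ (2 * π) ^ 2 * s ^ 2 := by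
        have : 2 * π * a k * ω = 2 * π * (a k * ω) := by ring
        rw [this, mul_pow]
        have : (a k * ω) ^ 2 ≤ s ^ 2 := by
          rw [← sq_abs (a k * ω)]
          exact pow_le_pow_left₀ (abs_nonneg _) h4 2
        gcongr
      have h6 : (2 * π) ^ 2 ≤ 40 := by
        have := Real.pi_lt_d2
        nlinarith [Real.pi_pos]
      have h7 : (2 * π) ^ 2 * s ^ 2 ≤ 40 * (δ / 10) ^ 2 := by
        rw [hs]; gcongr
      nlinarith
    refine le_trans ?_ (mul_le_mul_of_nonneg_left (ENNReal.log_monotone hv)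
      (by exact_mod_cast (inv_nonneg.2 hn0.le)))
    rw [ENNReal.log_ofReal_of_pos hr0, ← EReal.coe_mul, EReal.coe_le_coe_iff, hr,
      Real.log_div hs0.ne' (by positivity), Real.log_pow, le_inv_mul_iff₀ hn0]
    nlinarith
  have h4 := h3.trans h2
  rw [EReal.coe_le_coe_iff] at h4
  linarith

/-- Bounded ratios. -/
lemma bounded (a : ℕ → ℝ) (C : ℝ) (N : ℕ) (h : ∀ k ≥ N, |a (k + 1)| ≤ C * |a k|) :
    ∃ D : ℝ, 1 ≤ D ∧ ∀ n, ∀ k < n, |a k| ≤ D ^ n := by
  set B : ℝ := ∑ k ∈ Finset.range (N + 1), |a k| with hB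
  have hB0 : 0 ≤ B := Finset.sum_nonneg fun _ _ => abs_nonneg _
  set E : ℝ := max C 1 with hE
  have hE1 : 1 ≤ E := le_max_right _ _
  have hk : ∀ k, |a k| ≤ B * E ^ k := by
    intro k
    induction k with
    | zero =>
      rw [pow_zero, mul_one]
      exact Finset.single_le_sum (f := fun k => |a k|) (fun _ _ => abs_nonneg _) (by simp)
    | succ k ih =>
      rcases lt_or_ge k N with hkN | hkN
      · have h1 : |a (k + 1)| ≤ B :=
          Finset.single_le_sum (f := fun k => |a k|) (fun _ _ => abs_nonneg _)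
            (Finset.mem_range.2 (by omega))
        have h2 : 1 ≤ E ^ (k + 1) := one_le_pow₀ hE1
        nlinarith
      · calc |a (k + 1)| ≤ C * |a k| := h k hkN
          _ ≤ E * |a k| := by gcongr; exact le_max_left _ _
          _ ≤ E * (B * E ^ k) := by gcongr
          _ = B * E ^ (k + 1) := by ring
  refine ⟨(B + 1) * E, by nlinarith, fun n k hkn => ?_⟩
  calc |a k| ≤ B * E ^ k := hk k
    _ ≤ (B + 1) ^ n * E ^ n := by
      have h1 : B ≤ (B + 1) ^ n := by
        calc B ≤ (B + 1) ^ 1 := by linarith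
          _ ≤ (B + 1) ^ n := pow_le_pow_right₀ (by linarith) (by omega)
      have h2 : E ^ k ≤ E ^ n := pow_le_pow_right₀ hE1 hkn.le
      gcongr
    _ = ((B + 1) * E) ^ n := by rw [mul_pow]

/-- **The independent rate function occurs only under super-exponential growth.** (1) If the averages
`S_n / n` of `cos (2π a_k ω)`, `(a_k)` any real sequence, satisfy the large deviation upper bound with
speed `n` and the rate function of the independent case, only for the closed half-lines `[x, ∞)`, then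
for every `C` and all large `n` some `|a_k|`, `k < n`, exceeds `C ^ n`. (2) So this upper bound, and the
large deviation principle, fail for EVERY sequence `(a_k)` of non-zero reals with `a_{k+1} / a_k → η` for
some real `η`; in particular for all lacunary sequences of positive integers with
`a_{k+1} / a_k → η`, for every `η`, transcendental or not; and for all sequences with
`|a_{k+1}| ≤ C |a_k|` for all large `k`. -/
theorem result :
    (∀ a : ℕ → ℝ, HalfLineUpperBound a →
      ∀ C : ℝ, ∀ᶠ n : ℕ in atTop, ∃ k < n, C ^ n < |a k|) ∧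
    (∀ (a : ℕ → ℝ) (C : ℝ), (∀ᶠ k : ℕ in atTop, |a (k + 1)| ≤ C * |a k|) →
      ¬ HalfLineUpperBound a ∧ ¬ LDP a) ∧
    (∀ (a : ℕ → ℝ) (η : ℝ), (∀ k, a k ≠ 0) →
      Tendsto (fun k : ℕ => a (k + 1) / a k) atTop (𝓝 η) → ¬ HalfLineUpperBound a ∧ ¬ LDP a) := by
  have key : ∀ a : ℕ → ℝ, HalfLineUpperBound a →
      ∀ C : ℝ, ∀ᶠ n : ℕ in atTop, ∃ k < n, C ^ n < |a k| := by
    intro a ha C
    by_contra hcon
    rw [not_eventually] at hcon
    apply main a (max |C| 1) (le_max_right _ _) _ ha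
    refine hcon.mono fun n hn k hk => ?_
    push Not at hn
    calc |a k| ≤ C ^ n := hn k hk
      _ ≤ |C ^ n| := le_abs_self _
      _ = |C| ^ n := abs_pow _ _
      _ ≤ (max |C| 1) ^ n := by gcongr; exact le_max_left _ _
  have key2 : ∀ (a : ℕ → ℝ) (C : ℝ), (∀ᶠ k : ℕ in atTop, |a (k + 1)| ≤ C * |a k|) →
      ¬ HalfLineUpperBound a ∧ ¬ LDP a := by
    intro a C h
    obtain ⟨N, hN⟩ := eventually_atTop.1 h
    obtain ⟨D, hD1, hD⟩ := bounded a C N hN
    have h1 : ¬ HalfLineUpperBound a :=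
      main a D hD1 (Frequently.of_forall fun n => hD n)
    exact ⟨h1, fun h2 => h1 h2.half⟩
  refine ⟨key, key2, fun a η h0 h => key2 a (|η| + 1) ?_⟩
  have h1 := h.abs.eventually (gt_mem_nhds (lt_add_one |η|))
  filter_upwards [h1] with k hk
  rw [abs_div, div_lt_iff₀ (abs_pos.2 (h0 k))] at hk
  exact hk.le

end Pool.Agent.Results.MP_4e696d_pr.EverySequence
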